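import Pool.Agent.Helper71.P4.St

/-!
# MP_3dd6d4_an, project P4, module NC
-/

set_option autoImplicit false

namespace Helper71.P4

open Helper69.CR

private lemma first_NC (p : ℝ) (hp : 2 ≤ p) :
    (((0 : ℕ) : ℝ) + 1 - 1 / p) / (((0 : ℕ) : ℝ) + 1 / p) = p - 1 := by
  have h : p ≠ 0 := by linarith
  field_simp
  push_cast
  ring

theorem hNC : StNC := by
  intro n p₀ p hn hp₀ hpp
  obtain ⟨m, rfl⟩ : ∃ m, n = m + 1 := ⟨n - 1, by omega⟩
  have hp : 2 ≤ p := le_trans hp₀ hpp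
  have h0 : 0 < p₀ := by linarith
  have h1 : 0 < p := by linarith
  have ha : 0 < 1 / p := by positivity
  have ha0 : 0 < 1 / p₀ := by positivity
  have hle : 1 / p ≤ 1 / p₀ := one_div_le_one_div_of_le h0 hpp
  have hhalf : 1 / p₀ ≤ 1 / 2 := one_div_le_one_div_of_le (by norm_num) hp₀
  unfold Cn
  rw [Finset.prod_range_succ', Finset.prod_range_succ', first_NC p₀ hp₀, first_NC p hp]
  have key : ∏ k ∈ Finset.range m, ((((k + 1 : ℕ) : ℝ) + 1 - 1 / p₀) / (((k + 1 : ℕ) : ℝ) + 1 / p₀)) ≤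
      ∏ k ∈ Finset.range m, ((((k + 1 : ℕ) : ℝ) + 1 - 1 / p) / (((k + 1 : ℕ) : ℝ) + 1 / p)) := by
    apply Finset.prod_le_prod
    · intro k _
      have hk : (0 : ℝ) ≤ (k : ℝ) := Nat.cast_nonneg k
      apply div_nonneg
      · push_cast; linarith
      · push_cast; linarith
    · intro k _
      have hk : (0 : ℝ) ≤ (k : ℝ) := Nat.cast_nonneg k
      apply div_le_div₀
      · push_cast; linarith
      · linarith
      · push_cast; linarith
      · linarith
  have hne : p₀ - 1 ≠ 0 := by linarith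
  have e : (p - 1) / (p₀ - 1) *
      ((∏ k ∈ Finset.range m, ((((k + 1 : ℕ) : ℝ) + 1 - 1 / p₀) / (((k + 1 : ℕ) : ℝ) + 1 / p₀))) *
        (p₀ - 1)) =
      (∏ k ∈ Finset.range m, ((((k + 1 : ℕ) : ℝ) + 1 - 1 / p₀) / (((k + 1 : ℕ) : ℝ) + 1 / p₀))) *
        (p - 1) := by
    field_simp
  rw [e]
  exact mul_le_mul_of_nonneg_right key (by linarith)

end Helper71.P4
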